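import Pool.Agent.H992.BE.Defs

/-!
# BE8: uniform absolute continuity for continuous cylinder functions implies absolute continuity
(`S_AC`, by helper643 for helper992)
-/

set_option autoImplicit false
open MeasureTheory Filter Topology Complex ProbabilityTheory
open scoped ContDiff ENNReal NNReal BoundedContinuousFunction

namespace Pool.Agent.H643.BE

section
variable {X ι : Type*} [mX : MeasurableSpace X]

/-- approximable by continuous cylinder functions -/
def Appr (ν : Measure X) (Y : ι → X → ℝ) (A : Set X) : Prop :=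
  ∀ η : ℝ, 0 < η → ∃ (k : ℕ) (w : Fin k → ι) (Φ : (Fin k → ℝ) → ℝ), Continuous Φ ∧
    (∀ y, 0 ≤ Φ y) ∧ (∀ y, Φ y ≤ 1) ∧
    ∫ x, |A.indicator (fun _ => (1 : ℝ)) x - Φ (fun j => Y (w j) x)| ∂ν ≤ η

omit mX in
theorem ind_cases (A : Set X) (x : X) :
    0 ≤ A.indicator (fun _ => (1 : ℝ)) x ∧ A.indicator (fun _ => (1 : ℝ)) x ≤ 1 := by
  by_cases h : x ∈ A
  · rw [Set.indicator_of_mem h]; norm_num
  · rw [Set.indicator_of_notMem h]; norm_num

theorem int_ind (ν : Measure X) [IsFiniteMeasure ν] {A : Set X} (hA : MeasurableSet A) :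
    Integrable (A.indicator (fun _ => (1 : ℝ))) ν :=
  (integrable_const _).indicator hA

theorem int_cyl (ν : Measure X) [IsFiniteMeasure ν] {Y : ι → X → ℝ} (hY : ∀ i, Measurable (Y i))
    {k : ℕ} (w : Fin k → ι) {Φ : (Fin k → ℝ) → ℝ} (hΦ : Continuous Φ) (h0 : ∀ y, 0 ≤ Φ y)
    (h1 : ∀ y, Φ y ≤ 1) : Integrable (fun x => Φ (fun j => Y (w j) x)) ν := by
  have hm : Measurable (fun x => Φ (fun j => Y (w j) x)) :=
    hΦ.measurable.comp (measurable_pi_lambda _ fun j => hY (w j))
  refine Integrable.of_bound hm.aestronglyMeasurable 1 (ae_of_all _ fun x => ?_)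
  rw [Real.norm_of_nonneg (h0 _)]
  exact h1 _

theorem int_diff (ν : Measure X) [IsFiniteMeasure ν] {Y : ι → X → ℝ} (hY : ∀ i, Measurable (Y i))
    {k : ℕ} (w : Fin k → ι) {Φ : (Fin k → ℝ) → ℝ} (hΦ : Continuous Φ) (h0 : ∀ y, 0 ≤ Φ y)
    (h1 : ∀ y, Φ y ≤ 1) {A : Set X} (hA : MeasurableSet A) :
    Integrable (fun x => |A.indicator (fun _ => (1 : ℝ)) x - Φ (fun j => Y (w j) x)|) ν :=
  ((int_ind ν hA).sub (int_cyl ν hY w hΦ h0 h1)).abs

theorem appr_compl {ν : Measure X} {Y : ι → X → ℝ} {A : Set X} (h : Appr ν Y A) :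
    Appr ν Y Aᶜ := by
  intro η hη
  obtain ⟨k, w, Φ, hΦ, h0, h1, hI⟩ := h η hη
  refine ⟨k, w, fun y => 1 - Φ y, continuous_const.sub hΦ, fun y => sub_nonneg.2 (h1 y),
    fun y => sub_le_self _ (h0 y), ?_⟩
  have e : ∀ x, |Aᶜ.indicator (fun _ => (1 : ℝ)) x - (1 - Φ (fun j => Y (w j) x))|
      = |A.indicator (fun _ => (1 : ℝ)) x - Φ (fun j => Y (w j) x)| := by
    intro x
    have e1 : Aᶜ.indicator (fun _ => (1 : ℝ)) x = 1 - A.indicator (fun _ => (1 : ℝ)) x := by
      by_cases hx : x ∈ A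
      · rw [Set.indicator_of_mem hx, Set.indicator_of_notMem (by simpa using hx)]; ring
      · rw [Set.indicator_of_notMem hx, Set.indicator_of_mem (by simpa using hx)]; ring
    rw [e1, ← abs_neg]
    congr 1
    ring
  simp_rw [e]
  exact hI

theorem appr_empty {ν : Measure X} {Y : ι → X → ℝ} : Appr ν Y ∅ := by
  intro η hη
  refine ⟨0, Fin.elim0, fun _ => 0, continuous_const, fun _ => le_rfl, fun _ => zero_le_one, ?_⟩
  simp [hη.le]

theorem appr_union {ν : Measure X} [IsFiniteMeasure ν] {Y : ι → X → ℝ} (hY : ∀ i, Measurable (Y i))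
    {A B : Set X} (mA : MeasurableSet A) (mB : MeasurableSet B) (hA : Appr ν Y A)
    (hB : Appr ν Y B) : Appr ν Y (A ∪ B) := by
  intro η hη
  obtain ⟨k, w, Φ, hΦ, h0, h1, hI⟩ := hA (η / 2) (half_pos hη)
  obtain ⟨k', w', Φ', hΦ', h0', h1', hI'⟩ := hB (η / 2) (half_pos hη)
  refine ⟨k + k', Fin.append w w', fun y => max (Φ fun j => y (Fin.castAdd k' j))
    (Φ' fun j => y (Fin.natAdd k j)), ?_, ?_, ?_, ?_⟩
  · refine (hΦ.comp ?_).max (hΦ'.comp ?_)
    · exact continuous_pi fun j => continuous_apply _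
    · exact continuous_pi fun j => continuous_apply _
  · intro y
    exact le_max_of_le_left (h0 _)
  · intro y
    exact max_le (h1 _) (h1' _)
  · have i1 := int_diff ν hY w hΦ h0 h1 mA
    have i2 := int_diff ν hY w' hΦ' h0' h1' mB
    have h3 : ∫ x, (|A.indicator (fun _ => (1 : ℝ)) x - Φ (fun j => Y (w j) x)| +
        |B.indicator (fun _ => (1 : ℝ)) x - Φ' (fun j => Y (w' j) x)|) ∂ν ≤ η := by
      rw [integral_add i1 i2]
      linarith
    refine le_trans (integral_mono_of_nonneg (ae_of_all _ fun x => abs_nonneg _) (i1.add i2)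
      (ae_of_all _ fun x => ?_)) h3
    simp only [Fin.append_left, Fin.append_right]
    have e1 : (A ∪ B).indicator (fun _ => (1 : ℝ)) x =
        max (A.indicator (fun _ => (1 : ℝ)) x) (B.indicator (fun _ => (1 : ℝ)) x) := by
      by_cases hx : x ∈ A
      · rw [Set.indicator_of_mem hx, Set.indicator_of_mem (s := A ∪ B) (Set.mem_union_left _ hx),
          max_eq_left (ind_cases B x).2]
      · by_cases hy : x ∈ B
        · rw [Set.indicator_of_mem hy, Set.indicator_of_mem (s := A ∪ B) (Set.mem_union_right _ hy),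
            max_eq_right (ind_cases A x).2]
        · rw [Set.indicator_of_notMem hx, Set.indicator_of_notMem hy,
            Set.indicator_of_notMem (by simp [hx, hy]), max_self]
    rw [e1]
    refine le_trans (abs_max_sub_max_le_max _ _ _ _) (max_le ?_ ?_)
    · exact le_add_of_nonneg_right (abs_nonneg _)
    · exact le_add_of_nonneg_left (abs_nonneg _)

theorem appr_iUnion {ν : Measure X} [IsFiniteMeasure ν] {Y : ι → X → ℝ}
    (hY : ∀ i, Measurable (Y i)) {A : ℕ → Set X} (mA : ∀ n, MeasurableSet (A n))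
    (hA : ∀ n, Appr ν Y (A n)) : Appr ν Y (⋃ n, A n) := by
  have mac : ∀ n, MeasurableSet (Set.accumulate A n) := fun n =>
    MeasurableSet.biUnion (Set.to_countable _) fun i _ => mA i
  have hac : ∀ n, Appr ν Y (Set.accumulate A n) := by
    intro n
    induction n with
    | zero =>
      have e : Set.accumulate A 0 = A 0 := Set.accumulate_zero_nat A
      rw [e]; exact hA 0
    | succ n ih =>
      have e : Set.accumulate A (n + 1) = Set.accumulate A n ∪ A (n + 1) := Set.accumulate_succ A n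
      rw [e]
      exact appr_union hY (mac n) (mA _) ih (hA _)
  intro η hη
  have hm : MeasurableSet (⋃ n, A n) := MeasurableSet.iUnion mA
  have ht : Tendsto (fun n => ν (Set.accumulate A n)) atTop (𝓝 (ν (⋃ n, A n))) :=
    tendsto_measure_iUnion_accumulate
  have ht' : Tendsto (fun n => (ν (Set.accumulate A n)).toReal) atTop
      (𝓝 (ν (⋃ n, A n)).toReal) := (ENNReal.tendsto_toReal (measure_ne_top _ _)).comp ht
  obtain ⟨n, hn⟩ := (ht'.eventually (lt_mem_nhds (sub_lt_self (ν (⋃ n, A n)).toReal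
    (half_pos hη)))).exists
  obtain ⟨k, w, Φ, hΦ, h0, h1, hI⟩ := hac n (η / 2) (half_pos hη)
  refine ⟨k, w, Φ, hΦ, h0, h1, ?_⟩
  have hsub : Set.accumulate A n ⊆ ⋃ n, A n := Set.accumulate_subset_iUnion n
  have i1 : Integrable (fun x => (⋃ n, A n).indicator (fun _ => (1 : ℝ)) x -
      (Set.accumulate A n).indicator (fun _ => (1 : ℝ)) x) ν := (int_ind ν hm).sub (int_ind ν (mac n))
  have i2 := int_diff ν hY w hΦ h0 h1 (mac n)
  have h3 : ∫ x, (((⋃ n, A n).indicator (fun _ => (1 : ℝ)) x -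
      (Set.accumulate A n).indicator (fun _ => (1 : ℝ)) x) +
      |(Set.accumulate A n).indicator (fun _ => (1 : ℝ)) x - Φ (fun j => Y (w j) x)|) ∂ν ≤ η := by
    rw [integral_add i1 i2, integral_sub (int_ind ν hm) (int_ind ν (mac n)),
      integral_indicator_const _ hm, integral_indicator_const _ (mac n)]
    simp only [smul_eq_mul, mul_one, Measure.real]
    linarith
  refine le_trans (integral_mono_of_nonneg (ae_of_all _ fun x => abs_nonneg _) (i1.add i2)
    (ae_of_all _ fun x => ?_)) h3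
  have h4 : 0 ≤ (⋃ n, A n).indicator (fun _ => (1 : ℝ)) x -
      (Set.accumulate A n).indicator (fun _ => (1 : ℝ)) x :=
    sub_nonneg.2 (Set.indicator_le_indicator_of_subset hsub (fun _ => zero_le_one) x)
  have h5 : (⋃ n, A n).indicator (fun _ => (1 : ℝ)) x - Φ (fun j => Y (w j) x) =
      ((⋃ n, A n).indicator (fun _ => (1 : ℝ)) x -
      (Set.accumulate A n).indicator (fun _ => (1 : ℝ)) x) +
      ((Set.accumulate A n).indicator (fun _ => (1 : ℝ)) x - Φ (fun j => Y (w j) x)) := by ring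
  show |(⋃ n, A n).indicator (fun _ => (1 : ℝ)) x - Φ (fun j => Y (w j) x)| ≤ _
  rw [h5]
  refine le_trans (abs_add_le _ _) ?_
  rw [abs_of_nonneg h4]
  exact le_rfl

theorem appr_gen {ν : Measure X} [IsFiniteMeasure ν] {Y : ι → X → ℝ}
    (hY : ∀ i, Measurable (Y i)) (i : ι) (c : ℝ) : Appr ν Y (Y i ⁻¹' Set.Ioi c) := by
  let F : ℕ → X → ℝ := fun m x => |(Y i ⁻¹' Set.Ioi c).indicator (fun _ => (1 : ℝ)) x -
    min 1 ((m : ℝ) * max 0 (Y i x - c))|
  have hc : ∀ m : ℕ, Continuous fun t : ℝ => min 1 ((m : ℝ) * max 0 (t - c)) := fun m => by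
    fun_prop
  have hS : MeasurableSet (Y i ⁻¹' Set.Ioi c) := hY i measurableSet_Ioi
  have h01 : ∀ (m : ℕ) (t : ℝ), 0 ≤ min 1 ((m : ℝ) * max 0 (t - c)) := fun m t =>
    le_min zero_le_one (mul_nonneg (Nat.cast_nonneg m) (le_max_left _ _))
  have ht : Tendsto (fun m => ∫ x, F m x ∂ν) atTop (𝓝 (∫ x, (0 : ℝ) ∂ν)) := by
    refine tendsto_integral_of_dominated_convergence (fun _ => (1 : ℝ)) ?_ (integrable_const _)
      ?_ ?_
    · intro m
      exact ((((measurable_const.indicator hS).sub ((hc m).measurable.comp (hY i)))).abs).aestronglyMeasurable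
    · intro m
      refine ae_of_all _ fun x => ?_
      rw [Real.norm_eq_abs, abs_abs, abs_le]
      have h1 := ind_cases (Y i ⁻¹' Set.Ioi c) x
      have h2 := h01 m (Y i x)
      have h3 : min 1 ((m : ℝ) * max 0 (Y i x - c)) ≤ 1 := min_le_left _ _
      constructor <;> linarith [h1.1, h1.2]
    · refine ae_of_all _ fun x => ?_
      by_cases hx : c < Y i x
      · have e1 : (Y i ⁻¹' Set.Ioi c).indicator (fun _ => (1 : ℝ)) x = 1 :=
          Set.indicator_of_mem (show x ∈ Y i ⁻¹' Set.Ioi c from hx) _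
        obtain ⟨N, hN⟩ := exists_nat_gt (1 / (Y i x - c))
        have hp : 0 < Y i x - c := sub_pos.2 hx
        refine tendsto_const_nhds.congr' ?_
        filter_upwards [eventually_ge_atTop N] with m hm
        have h2 : 1 ≤ (m : ℝ) * max 0 (Y i x - c) := by
          rw [max_eq_right hp.le]
          have h3 : (N : ℝ) ≤ m := by exact_mod_cast hm
          have h4 : 1 < (N : ℝ) * (Y i x - c) := (div_lt_iff₀ hp).1 hN
          nlinarith
        show (0 : ℝ) = |(Y i ⁻¹' Set.Ioi c).indicator (fun _ => (1 : ℝ)) x -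
          min 1 ((m : ℝ) * max 0 (Y i x - c))|
        rw [e1, min_eq_left h2, sub_self, abs_zero]
      · have e1 : (Y i ⁻¹' Set.Ioi c).indicator (fun _ => (1 : ℝ)) x = 0 :=
          Set.indicator_of_notMem (show x ∉ Y i ⁻¹' Set.Ioi c from hx) _
        refine tendsto_const_nhds.congr' (Eventually.of_forall fun m => ?_)
        show (0 : ℝ) = |(Y i ⁻¹' Set.Ioi c).indicator (fun _ => (1 : ℝ)) x -
          min 1 ((m : ℝ) * max 0 (Y i x - c))|
        rw [e1, max_eq_left (by linarith [not_lt.1 hx]), mul_zero, min_eq_right zero_le_one,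
          sub_self, abs_zero]
  rw [integral_zero] at ht
  intro η hη
  obtain ⟨m, hm⟩ := (ht.eventually (gt_mem_nhds hη)).exists
  exact ⟨1, fun _ => i, fun y => min 1 ((m : ℝ) * max 0 (y 0 - c)),
    (hc m).comp (continuous_apply 0), fun y => h01 m _, fun y => min_le_left _ _, hm.le⟩

theorem appr_all {ν : Measure X} [IsFiniteMeasure ν] {Y : ι → X → ℝ}
    (hY : ∀ i, Measurable (Y i)) {A : Set X}
    (hA : MeasurableSet[MeasurableSpace.comap (fun x i => Y i x) inferInstance] A) :
    MeasurableSet A ∧ Appr ν Y A := by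
  let C : Set (Set X) := {S | ∃ (i : ι) (c : ℝ), S = Y i ⁻¹' Set.Ioi c}
  have hle : MeasurableSpace.comap (fun x i => Y i x) inferInstance ≤
      MeasurableSpace.generateFrom C := by
    have hm : @Measurable X (ι → ℝ) (MeasurableSpace.generateFrom C) inferInstance
        (fun x i => Y i x) := by
      refine @measurable_pi_lambda X ι _ (MeasurableSpace.generateFrom C) _ _ fun i => ?_
      refine @measurable_of_Ioi ℝ X _ _ _ (MeasurableSpace.generateFrom C) _ _ _ (Y i) fun c => ?_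
      exact MeasurableSpace.measurableSet_generateFrom ⟨i, c, rfl⟩
    exact hm.comap_le
  have key : ∀ S, MeasurableSet[MeasurableSpace.generateFrom C] S →
      MeasurableSet S ∧ Appr ν Y S := by
    intro S hS
    induction S, hS using MeasurableSpace.generateFrom_induction with
    | hC S hS _ =>
      obtain ⟨i, c, rfl⟩ := hS
      exact ⟨hY i measurableSet_Ioi, appr_gen hY i c⟩
    | empty => exact ⟨MeasurableSet.empty, appr_empty⟩
    | compl S _ ih => exact ⟨ih.1.compl, appr_compl ih.2⟩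
    | iUnion f _ ih => exact ⟨MeasurableSet.iUnion fun n => (ih n).1,
        appr_iUnion hY (fun n => (ih n).1) fun n => (ih n).2⟩
  exact key A (hle _ hA)

end

open Pool.Agent.N661.BR (MW)

theorem ac : Pool.Agent.H992.BE.S_AC := by
  intro U μ γ _ _ H A hA h0
  have hYm : ∀ i, Measurable (Pool.Agent.H992.LB.ev U i) := Pool.Agent.H992.LB.ev_meas U
  obtain ⟨mA, hAp⟩ := appr_all (ν := μ + γ) (Y := Pool.Agent.H992.LB.ev U) hYm hA
  have key : ∀ ε : ℝ, 0 < ε → (μ A).toReal ≤ 2 * ε := by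
    intro ε hε
    obtain ⟨δ, hδ, hH⟩ := H ε hε
    obtain ⟨k, w, Φ, hΦ, hΦ0, hΦ1, hI⟩ := hAp (min δ ε) (lt_min hδ hε)
    have i1 := int_diff μ hYm w hΦ hΦ0 hΦ1 mA
    have i2 := int_diff γ hYm w hΦ hΦ0 hΦ1 mA
    rw [integral_add_measure i1 i2] at hI
    have n1 : 0 ≤ ∫ x, |A.indicator (fun _ => (1 : ℝ)) x -
        Φ (fun j => Pool.Agent.H992.LB.ev U (w j) x)| ∂μ := integral_nonneg fun _ => abs_nonneg _
    have n2 : 0 ≤ ∫ x, |A.indicator (fun _ => (1 : ℝ)) x -
        Φ (fun j => Pool.Agent.H992.LB.ev U (w j) x)| ∂γ := integral_nonneg fun _ => abs_nonneg _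
    have m1 := min_le_left δ ε
    have m2 := min_le_right δ ε
    have c1 := int_cyl μ hYm w hΦ hΦ0 hΦ1
    have c2 := int_cyl γ hYm w hΦ hΦ0 hΦ1
    -- `γ`
    have g1 : ∫ x, Φ (fun j => Pool.Agent.H992.LB.ev U (w j) x) ∂γ ≤ δ := by
      have h1 : ∫ x, Φ (fun j => Pool.Agent.H992.LB.ev U (w j) x) ∂γ ≤
          ∫ x, (|A.indicator (fun _ => (1 : ℝ)) x -
            Φ (fun j => Pool.Agent.H992.LB.ev U (w j) x)| +
            A.indicator (fun _ => (1 : ℝ)) x) ∂γ := by
        refine integral_mono c2 (i2.add (int_ind γ mA)) fun x => ?_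
        have h2 := neg_abs_le (A.indicator (fun _ => (1 : ℝ)) x -
            Φ (fun j => Pool.Agent.H992.LB.ev U (w j) x))
        show _ ≤ |A.indicator (fun _ => (1 : ℝ)) x -
            Φ (fun j => Pool.Agent.H992.LB.ev U (w j) x)| + A.indicator (fun _ => (1 : ℝ)) x
        linarith
      rw [integral_add i2 (int_ind γ mA), integral_indicator_const _ mA] at h1
      simp only [Measure.real, h0, ENNReal.toReal_zero, smul_eq_mul, zero_mul, add_zero] at h1
      linarith
    have g2 : ∫ x, Φ (fun j => Pool.Agent.H992.LB.ev U (w j) x) ∂μ ≤ ε :=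
      hH k (fun j => (w j : ℂ)) (fun j => (w j).2) Φ hΦ hΦ0 hΦ1 g1
    have h3 : ∫ x, A.indicator (fun _ => (1 : ℝ)) x ∂μ ≤
        ∫ x, (|A.indicator (fun _ => (1 : ℝ)) x -
          Φ (fun j => Pool.Agent.H992.LB.ev U (w j) x)| +
          Φ (fun j => Pool.Agent.H992.LB.ev U (w j) x)) ∂μ := by
      refine integral_mono (int_ind μ mA) (i1.add c1) fun x => ?_
      have h2 := le_abs_self (A.indicator (fun _ => (1 : ℝ)) x -
            Φ (fun j => Pool.Agent.H992.LB.ev U (w j) x))
      show _ ≤ |A.indicator (fun _ => (1 : ℝ)) x -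
            Φ (fun j => Pool.Agent.H992.LB.ev U (w j) x)| +
            Φ (fun j => Pool.Agent.H992.LB.ev U (w j) x)
      linarith
    rw [integral_add i1 c1, integral_indicator_const _ mA] at h3
    simp only [Measure.real, smul_eq_mul, mul_one] at h3
    linarith
  have h4 : (μ A).toReal ≤ 0 := by
    refine le_of_forall_pos_le_add fun ε hε => ?_
    have := key (ε / 2) (half_pos hε)
    linarith
  have h5 : (μ A).toReal = 0 := le_antisymm h4 ENNReal.toReal_nonneg
  exact (ENNReal.toReal_eq_zero_iff _).1 h5 |>.resolve_right (measure_ne_top μ A)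

end Pool.Agent.H643.BE
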